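import Mathlib.Algebra.Homology.DerivedCategory.Ext.Map
import Mathlib.CategoryTheory.Simple
import Mathlib.CategoryTheory.Monoidal.Rigid.Basic

/-!
# Vanishing of Ext groups: definitions
-/

universe w v u v' u'

open CategoryTheory Category Limits Abelian MonoidalCategory

namespace Pool.Agent.TH133.XT

section

variable (C : Type u) [Category.{v} C] [Abelian C]

/-- All the groups `Ext ^ n` of the abelian category `C` with `n ≥ m` vanish: the cohomological
dimension of `C` is less than `m`. -/
def VanishFrom [HasExt.{w} C] (m : ℕ) : Prop :=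
  ∀ (n : ℕ), m ≤ n → ∀ (X Y : C) (x : Ext.{w} X Y n), x = 0

variable {C}

/-- The objects of finite length. -/
inductive FiniteLength : C → Prop
  | zero (X : C) : IsZero X → FiniteLength X
  | ext (S : ShortComplex C) : S.ShortExact → FiniteLength S.X₁ → Simple S.X₃ → FiniteLength S.X₂

/-- Two classes of objects: `T` (weights `≤ 0`) and `F` (weights `> 0`), stable under subobjects and
quotients and without common nonzero objects, such that every object is an extension of an object
of `F` by an object of `T`. -/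
structure IsWeightCut (T F : C → Prop) : Prop where
  T_of_mono : ∀ {X Y : C} (f : X ⟶ Y), Mono f → T Y → T X
  T_of_epi : ∀ {X Y : C} (f : X ⟶ Y), Epi f → T X → T Y
  F_of_mono : ∀ {X Y : C} (f : X ⟶ Y), Mono f → F Y → F X
  F_of_epi : ∀ {X Y : C} (f : X ⟶ Y), Epi f → F X → F Y
  isZero : ∀ X : C, T X → F X → IsZero X
  exists_cut : ∀ X : C, ∃ (Y Z : C) (f : Y ⟶ X) (g : X ⟶ Z) (w : f ≫ g = 0),
    (ShortComplex.mk f g w).ShortExact ∧ T Y ∧ F Z

end

/-- The functors `R` (restriction) and `I` (induction) are such that every object `V` is a direct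
summand of `I(R(V))` and every object `W` a direct summand of `R(I(W))`, by natural maps
`I(R(V)) ⟶ V` and `R(I(W)) ⟶ W` with sections. -/
def HasTransfer {A : Type u} [Category.{v} A] {B : Type u'} [Category.{v'} B] (R : A ⥤ B)
    (I : B ⥤ A) : Prop :=
  (∃ ρ : R ⋙ I ⟶ 𝟭 A, ∀ V, IsSplitEpi (ρ.app V)) ∧ ∃ ε : I ⋙ R ⟶ 𝟭 B, ∀ W, IsSplitEpi (ε.app W)

/-- `Ext ^ m (1, V) = 0` for all simple objects `V` which satisfy `T` (of weight `≤ 0`). -/
def SimpleVanish (A : Type u) [Category.{v} A] [Abelian A] [HasExt.{w} A] [MonoidalCategory A]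
    (T : A → Prop) (m : ℕ) : Prop :=
  ∀ V : A, Simple V → T V → ∀ x : Ext.{w} (𝟙_ A) V m, x = 0

end Pool.Agent.TH133.XT
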