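import Mathlib.Algebra.Homology.DerivedCategory.Ext.EnoughProjectives
import Mathlib.Algebra.Homology.DerivedCategory.Ext.Map

/-!
# Effaceability of Ext classes
-/

universe w' w v' v u' u

open CategoryTheory Category Limits Abelian

namespace Pool.Agent.TH133.XT

variable {C : Type u} [Category.{v} C] [Abelian C]

open HomologicalComplex in
set_option backward.defeqAttrib.useBackward true in
set_option backward.isDefEq.respectTransparency false in
/-- A quasi-isomorphism onto a complex concentrated in the top degree is dominated by an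
epimorphism. -/
lemma exists_epi_of_quasiIsoAt {P : C} {K : CochainComplex C ℤ} {i : ℤ}
    (π : K ⟶ (CochainComplex.singleFunctor C i).obj P) [K.IsStrictlyLE i] [QuasiIsoAt π i] :
    ∃ (P' : C) (p : P' ⟶ P) (s : (CochainComplex.singleFunctor C i).obj P' ⟶ K), Epi p ∧
      s ≫ π = (CochainComplex.singleFunctor C i).map p := by
  let e := K.iCyclesIso i (i + 1) (by simp)
    ((K.isZero_of_isStrictlyLE i (i + 1) (by simp)).eq_of_tgt _ _)
  let α := e.inv ≫ K.homologyπ i ≫ homologyMap π i ≫ (singleObjHomologySelfIso _ _ _).hom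
  have : π.f i = α ≫ (singleObjXSelf (ComplexShape.up ℤ) i P).inv := by
    rw [← cancel_epi e.hom]
    dsimp [α, e]
    rw [assoc, assoc, assoc, iCyclesIso_hom_inv_id_assoc,
      homologyπ_naturality_assoc]
    dsimp [CochainComplex.singleFunctor, CochainComplex.singleFunctors]
    rw [homologyπ_singleObjHomologySelfIso_hom_assoc,
      ← singleObjCyclesSelfIso_inv_iCycles, Iso.hom_inv_id_assoc, ← cyclesMap_i]
  have hepi : Epi α := by
    dsimp only [α]
    have : IsIso (homologyMap π i) := by
      rwa [← quasiIsoAt_iff_isIso_homologyMap]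
    infer_instance
  refine ⟨K.X i, α, mkHomFromSingle (𝟙 _) (by
      rintro _ rfl
      apply (K.isZero_of_isStrictlyLE i (i + 1) (by simp)).eq_of_tgt), hepi, ?_⟩
  apply HomologicalComplex.from_single_hom_ext
  rw [comp_f, mkHomFromSingle_f, this]
  dsimp [CochainComplex.singleFunctor, CochainComplex.singleFunctors]
  rw [single_map_f_self]
  simp

open DerivedCategory in
/-- A morphism from a single complex to a complex in lower degrees is killed by an epimorphism. -/
lemma exists_epi_from_singleFunctor [HasDerivedCategory.{w} C] {P : C} {L : CochainComplex C ℤ}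
    {i : ℤ} (φ : Q.obj ((CochainComplex.singleFunctor C i).obj P) ⟶ Q.obj L)
    (n : ℤ) (hn : n < i) [L.IsStrictlyLE n] :
    ∃ (P' : C) (p : P' ⟶ P), Epi p ∧ Q.map ((CochainComplex.singleFunctor C i).map p) ≫ φ = 0 := by
  obtain ⟨K, _, π, h, g, rfl⟩ := right_fac_of_isStrictlyLE φ i
  have hqi : QuasiIso π := by
    rwa [isIso_Q_map_iff_quasiIso] at h
  obtain ⟨P', p, s, hp, hs⟩ := exists_epi_of_quasiIsoAt π
  refine ⟨P', p, hp, ?_⟩
  have h₂ : s ≫ g = 0 := by
    apply HomologicalComplex.from_single_hom_ext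
    apply (L.isZero_of_isStrictlyLE n i hn).eq_of_tgt
  rw [← hs, Q.map_comp, assoc, IsIso.hom_inv_id_assoc, ← Q.map_comp, h₂, Q.map_zero]

variable [HasExt.{w} C]

open DerivedCategory in
set_option backward.isDefEq.respectTransparency false in
/-- **Effaceability**: an Ext class of positive degree is killed by an epimorphism. -/
lemma exists_epi_comp_eq_zero {X Y : C} {n : ℕ} (x : Ext.{w} X Y (n + 1)) :
    ∃ (X' : C) (p : X' ⟶ X), Epi p ∧ (Ext.mk₀ p).comp x (zero_add _) = 0 := by
  let := HasDerivedCategory.standard C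
  obtain ⟨X', p, hp, h⟩ := exists_epi_from_singleFunctor
    (L := (CochainComplex.singleFunctor C (-(n + 1))).obj Y) (i := 0)
    (x.hom ≫ ((singleFunctors C).shiftIso (n + 1) (-(n + 1)) 0 (by lia)).hom.app _)
    (-(n + 1)) (by lia)
  refine ⟨X', p, hp, ?_⟩
  apply Ext.homEquiv.injective
  simp only [← cancel_mono (((singleFunctors C).shiftIso (n + 1) (-(n + 1)) 0
    (by lia)).hom.app _), Ext.zero_hom, Limits.zero_comp]
  change ((Ext.mk₀ p).comp x (zero_add _)).hom ≫ _ = 0
  rw [← Ext.singleFunctor_map_comp_hom, assoc]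
  exact h

/-- **Every Ext class of positive degree is a product** with the class of a short exact
sequence. -/
lemma exists_decomp {X Y : C} {n : ℕ} (x : Ext.{w} X Y (n + 1)) :
    ∃ (I P : C) (f : I ⟶ P) (g : P ⟶ X) (w : f ≫ g = 0)
      (hS : (ShortComplex.mk f g w).ShortExact) (z : Ext.{w} I Y n),
      hS.extClass.comp z (add_comm 1 n) = x := by
  obtain ⟨X', p, hp, h⟩ := exists_epi_comp_eq_zero x
  have hS : (ShortComplex.mk (kernel.ι p) p (kernel.condition p)).ShortExact :=
    { exact := ShortComplex.exact_of_f_is_kernel _ (kernelIsKernel p) }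
  obtain ⟨z, hz⟩ := Ext.contravariant_sequence_exact₃ hS Y x h (add_comm 1 n)
  exact ⟨_, _, _, _, _, hS, z, hz⟩

/-- Case analysis for Ext classes of positive degree. -/
lemma ext_cases {n : ℕ} {motive : ∀ {X Y : C}, Ext.{w} X Y (n + 1) → Prop}
    (h : ∀ (S : ShortComplex C) (hS : S.ShortExact) (Y : C) (z : Ext.{w} S.X₁ Y n),
      motive (hS.extClass.comp z (add_comm 1 n))) {X Y : C} (x : Ext.{w} X Y (n + 1)) :
    motive x := by
  obtain ⟨I, P, f, g, w, hS, z, rfl⟩ := exists_decomp x
  exact h _ hS _ z

end Pool.Agent.TH133.XT
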