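import Pool.Agent.TH133.XT.Eff
import Pool.Agent.TH133.XT.Defs

/-!
# Vanishing of Ext groups: transfer, duality, devissage and weights
-/

universe w'' w' w v'' v' v u'' u' u

open CategoryTheory Category Limits Abelian MonoidalCategory

namespace Pool.Agent.TH133.XT

section Transfer

variable {A : Type u} [Category.{v} A] [Abelian A] [HasExt.{w} A]
  {B : Type u'} [Category.{v'} B] [Abelian B] [HasExt.{w'} B]
  (R : A ⥤ B) (I : B ⥤ A) [R.Additive] [PreservesFiniteLimits R] [PreservesFiniteColimits R]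
  [I.Additive] [PreservesFiniteLimits I] [PreservesFiniteColimits I]

/-- Naturality of the action of exact functors on the class of a short exact sequence. -/
lemma key_extClass (ρ : R ⋙ I ⟶ 𝟭 A) {S : ShortComplex A} (hS : S.ShortExact) :
    ((hS.extClass.mapExactFunctor R).mapExactFunctor I).comp (Ext.mk₀ (ρ.app S.X₁))
      (add_zero 1) = (Ext.mk₀ (ρ.app S.X₃)).comp hS.extClass (zero_add 1) := by
  let φ : (S.map R).map I ⟶ S :=
    { τ₁ := ρ.app _, τ₂ := ρ.app _, τ₃ := ρ.app _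
      comm₁₂ := (ρ.naturality S.f).symm
      comm₂₃ := (ρ.naturality S.g).symm }
  have e1 : (hS.extClass.mapExactFunctor R).mapExactFunctor I =
      ((hS.map_of_exact R).map_of_exact I).extClass :=
    (congrArg (Ext.mapExactFunctor I) (Ext.mapExactFunctor_extClass R hS)).trans
      (Ext.mapExactFunctor_extClass I (hS.map_of_exact R))
  rw [e1]
  exact ShortComplex.ShortExact.extClass_naturality ((hS.map_of_exact R).map_of_exact I) hS φ

/-- Naturality of the action of exact functors on Ext classes. -/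
lemma key (ρ : R ⋙ I ⟶ 𝟭 A) {n : ℕ} : ∀ {V W : A} (x : Ext.{w} V W n),
    ((x.mapExactFunctor R).mapExactFunctor I).comp (Ext.mk₀ (ρ.app W)) (add_zero n) =
      (Ext.mk₀ (ρ.app V)).comp x (zero_add n) := by
  induction n with
  | zero =>
    intro V W x
    obtain ⟨f, rfl⟩ := (Ext.mk₀_bijective V W).2 x
    rw [Ext.mapExactFunctor_mk₀, Ext.mapExactFunctor_mk₀, Ext.mk₀_comp_mk₀, Ext.mk₀_comp_mk₀]
    exact congrArg Ext.mk₀ (ρ.naturality f)
  | succ n ih =>
    intro V W x
    induction x using ext_cases with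
    | h S hS Y z =>
      rw [Ext.mapExactFunctor_comp, Ext.mapExactFunctor_comp, Ext.comp_assoc_of_third_deg_zero, ih,
        ← Ext.comp_assoc_of_second_deg_zero, key_extClass, Ext.comp_assoc _ _ _ _ _ (by omega)]

/-- An Ext class is zero if its image under `R` is killed by a suitable morphism. -/
lemma eq_zero_of_map (ρ : R ⋙ I ⟶ 𝟭 A) {n : ℕ} {V W : A} (x : Ext.{w} V W n) {U : B}
    (u : U ⟶ R.obj V) (s : V ⟶ I.obj U) (hs : s ≫ I.map u ≫ ρ.app V = 𝟙 V)
    (h : (Ext.mk₀ u).comp (x.mapExactFunctor R) (zero_add n) = 0) : x = 0 := by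
  have h1 := congrArg (Ext.mapExactFunctor I) h
  rw [Ext.mapExactFunctor_comp, Ext.mapExactFunctor_mk₀, Ext.mapExactFunctor_zero] at h1
  have h2 : (Ext.mk₀ (s ≫ I.map u ≫ ρ.app V)).comp x (zero_add n) = 0 := by
    rw [← Ext.mk₀_comp_mk₀_assoc, ← Ext.mk₀_comp_mk₀_assoc, ← key R I ρ x,
      ← Ext.comp_assoc_of_third_deg_zero, h1, Ext.zero_comp, Ext.comp_zero]
  rwa [hs, Ext.mk₀_id_comp] at h2

/-- The vanishing in `B` gives the vanishing in `A`. -/
theorem vanish_of_transfer (ρ : R ⋙ I ⟶ 𝟭 A) (hρ : ∀ V, IsSplitEpi (ρ.app V)) {m : ℕ}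
    (h : VanishFrom.{w'} B m) : VanishFrom.{w} A m := by
  intro n hn V W x
  obtain ⟨⟨s, hs⟩⟩ := hρ V
  refine eq_zero_of_map R I ρ x (𝟙 _) s (by rw [I.map_id, id_comp]; exact hs) ?_
  rw [h n hn _ _ (x.mapExactFunctor R), Ext.comp_zero]

end Transfer

section Devissage

variable {A : Type u} [Category.{v} A] [Abelian A] [HasExt.{w} A]

/-- Vanishing in one degree gives the vanishing in all higher degrees. -/
lemma vanishFrom_of_one {m : ℕ} (h : ∀ (X Y : A) (x : Ext.{w} X Y m), x = 0) :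
    VanishFrom.{w} A m := by
  intro n hn
  induction n, hn using Nat.le_induction with
  | base => exact h
  | succ n _ ih =>
    intro X Y x
    induction x using ext_cases with
    | h S hS Y z => rw [ih _ _ z, Ext.comp_zero]

/-- Ext classes from objects of weights `≤ 0` to objects of weights `> 0` vanish. -/
lemma weight_vanish {T F : A → Prop} (hTF : IsWeightCut T F) (n : ℕ) :
    ∀ {X Y : A}, T X → F Y → ∀ x : Ext.{w} X Y n, x = 0 := by
  induction n with
  | zero =>
    intro X Y hX hY x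
    obtain ⟨f, rfl⟩ := (Ext.mk₀_bijective X Y).2 x
    have h0 : IsZero (Limits.image f) := hTF.isZero _
      (hTF.T_of_epi (Limits.factorThruImage f) inferInstance hX)
      (hTF.F_of_mono (Limits.image.ι f) inferInstance hY)
    have : f = 0 := by
      rw [← Limits.image.fac f, h0.eq_of_src (Limits.image.ι f) 0, comp_zero]
    rw [this, Ext.mk₀_zero]
  | succ n ih =>
    intro X Y hX hY x
    obtain ⟨X', p, hp, h⟩ := exists_epi_comp_eq_zero x
    obtain ⟨P, Z, f, g, w, hS, hP, hZ⟩ := hTF.exists_cut X'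
    have hg : Epi g := hS.epi_g
    have hq : Epi (f ≫ p) := by
      apply Preadditive.epi_of_isZero_cokernel
      have h1 : T (cokernel (f ≫ p)) := hTF.T_of_epi (cokernel.π _) inferInstance hX
      have h2 : f ≫ (p ≫ cokernel.π (f ≫ p)) = 0 := by
        rw [← assoc, cokernel.condition]
      have h3 : F (cokernel (f ≫ p)) := by
        have hex := hS.exact
        refine hTF.F_of_epi (hex.desc (p ≫ cokernel.π (f ≫ p)) h2) ?_ hZ
        have h4 : g ≫ hex.desc (p ≫ cokernel.π (f ≫ p)) h2 = p ≫ cokernel.π (f ≫ p) :=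
          hex.g_desc _ _
        have h5 : Epi (g ≫ hex.desc (p ≫ cokernel.π (f ≫ p)) h2) := by
          rw [h4]; infer_instance
        exact epi_of_epi g _
      exact hTF.isZero _ h1 h3
    have hk : (Ext.mk₀ (f ≫ p)).comp x (zero_add _) = 0 := by
      rw [← Ext.mk₀_comp_mk₀_assoc, h, Ext.comp_zero]
    have hS' : (ShortComplex.mk (kernel.ι (f ≫ p)) (f ≫ p) (kernel.condition _)).ShortExact :=
      { exact := ShortComplex.exact_of_f_is_kernel _ (kernelIsKernel (f ≫ p)) }
    obtain ⟨z, rfl⟩ := Ext.contravariant_sequence_exact₃ hS' Y x hk (add_comm 1 n)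
    rw [ih (hTF.T_of_mono (kernel.ι (f ≫ p)) inferInstance hP) hY z, Ext.comp_zero]

/-- A simple object has weights `≤ 0` or weights `> 0`. -/
lemma simple_cut {T F : A → Prop} (hTF : IsWeightCut T F) {V : A} (hV : Simple V) :
    T V ∨ F V := by
  obtain ⟨P, Z, f, g, w, hS, hP, hZ⟩ := hTF.exists_cut V
  have hf : Mono f := hS.mono_f
  have hg : Epi g := hS.epi_g
  by_cases h0 : f = 0
  · right
    have : Mono g := by
      have := hS.exact.mono_g h0
      exact this
    exact hTF.F_of_mono g this hZ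
  · left
    have : IsIso f := isIso_of_mono_of_nonzero h0
    exact hTF.T_of_epi f inferInstance hP

/-- Devissage to the simple objects. -/
lemma vanish_of_finiteLength {U : A} {m : ℕ}
    (h : ∀ V : A, Simple V → ∀ x : Ext.{w} U V m, x = 0) {W : A} (hW : FiniteLength W) :
    ∀ x : Ext.{w} U W m, x = 0 := by
  induction hW with
  | zero X hX =>
    intro x
    rw [← Ext.comp_mk₀_id x, hX.eq_of_src (𝟙 X) 0, Ext.mk₀_zero, Ext.comp_zero]
  | ext S hS _ h3 ih =>
    intro x
    obtain ⟨x₁, rfl⟩ := Ext.covariant_sequence_exact₂ U hS x (h _ h3 _)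
    rw [ih x₁, Ext.zero_comp]

variable [MonoidalCategory A] [LeftRigidCategory A] [∀ V : A, (tensorLeft V).Additive]
  [∀ V : A, PreservesFiniteLimits (tensorLeft V)]
  [∀ V : A, PreservesFiniteColimits (tensorLeft V)]

omit [Abelian A] [HasExt.{w} A] [∀ V : A, (tensorLeft V).Additive]
  [∀ V : A, PreservesFiniteLimits (tensorLeft V)]
  [∀ V : A, PreservesFiniteColimits (tensorLeft V)] in
/-- The evaluation `V ⊗ (V* ⊗ W) ⟶ W`. -/
noncomputable def evalTrans (V : A) : tensorLeft (ᘁV) ⋙ tensorLeft V ⟶ 𝟭 A where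
  app W := (α_ V (ᘁV) W).inv ≫ (ε_ (ᘁV) V ▷ W) ≫ (λ_ W).hom
  naturality X Y f := by
    change (V ◁ ((ᘁV) ◁ f)) ≫ (α_ V (ᘁV) Y).inv ≫ (ε_ (ᘁV) V ▷ Y) ≫ (λ_ Y).hom =
      ((α_ V (ᘁV) X).inv ≫ (ε_ (ᘁV) V ▷ X) ≫ (λ_ X).hom) ≫ f
    simp only [assoc]
    rw [← leftUnitor_naturality, ← whisker_exchange_assoc, associator_inv_naturality_right_assoc]

/-- Duality: it is enough to consider the Ext groups of the unit object. -/
lemma vanish_of_unit {m : ℕ} (h : ∀ (W : A) (x : Ext.{w} (𝟙_ A) W m), x = 0) (V W : A)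
    (x : Ext.{w} V W m) : x = 0 := by
  refine eq_zero_of_map (tensorLeft (ᘁV)) (tensorLeft V) (evalTrans V) x (U := 𝟙_ A)
    (η_ (ᘁV) V) (ρ_ V).inv ?_ (h _ _)
  change (ρ_ V).inv ≫ (V ◁ (η_ (ᘁV) V)) ≫ (α_ V (ᘁV) V).inv ≫ (ε_ (ᘁV) V ▷ V) ≫ (λ_ V).hom = 𝟙 V
  have := ExactPairing.coevaluation_evaluation (ᘁV) V
  rw [← assoc (V ◁ (η_ (ᘁV) V)), ← assoc (V ◁ (η_ (ᘁV) V) ≫ _)]
  simp only [assoc]
  rw [reassoc_of% this]
  simp

/-- **The criterion.** -/
theorem vanish_tfae {T F : A → Prop} (hTF : IsWeightCut T F) (h1 : T (𝟙_ A))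
    (hfin : ∀ V : A, FiniteLength V)
    {B : Type u'} [Category.{v'} B] [Abelian B] [HasExt.{w'} B]
    (R : A ⥤ B) (I : B ⥤ A) [R.Additive] [PreservesFiniteLimits R] [PreservesFiniteColimits R]
    [I.Additive] [PreservesFiniteLimits I] [PreservesFiniteColimits I] (hRI : HasTransfer R I)
    (m : ℕ) :
    [VanishFrom.{w'} B m, VanishFrom.{w} A m, SimpleVanish.{w} A T m].TFAE := by
  obtain ⟨⟨ρ, hρ⟩, ε, hε⟩ := hRI
  tfae_have 1 → 2 := vanish_of_transfer R I ρ hρ
  tfae_have 2 → 1 := vanish_of_transfer I R ε hε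
  tfae_have 2 → 3 := fun h V _ _ x => h m le_rfl _ _ x
  tfae_have 3 → 2 := by
    intro h
    apply vanishFrom_of_one
    apply vanish_of_unit
    intro W
    apply vanish_of_finiteLength _ (hfin W)
    intro V hV x
    rcases simple_cut hTF hV with hT | hF
    · exact h V hV hT x
    · exact weight_vanish hTF m h1 hF x
  tfae_finish

end Devissage

end Pool.Agent.TH133.XT
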